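import Pool.Agent.H28.CXR.Asm3
import Pool.Agent.H28.CXR.ALT
import Pool.Agent.H28.CXR.BR
import Pool.Agent.H28.CXR.Cnt
import Pool.Agent.H28.CXR.DET
import Pool.Agent.H28.CXR.DIH
import Pool.Agent.H28.CXR.FOLD
import Pool.Agent.H28.CXR.ITER
import Pool.Agent.H28.CXR.PAR
import Pool.Agent.H28.CXR.POS
import Pool.Agent.H28.CXR.Pri
import Pool.Agent.H28.CXR.RHO
import Pool.Agent.H28.CXR.Root
import Pool.Agent.H28.CXR.TOP1
import Pool.Agent.H28.CXR.TOP2
import Pool.Agent.H28.CXR.TRI

/-!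
# Boyd's conjecture for the Coxeter polynomials of generalised Cartan matrices with few negative
eigenvalues

Let `A` be an indecomposable symmetrizable generalised Cartan matrix of any size `n`, and let
`F = F_A` be its Coxeter polynomial, that is the characteristic polynomial of the Coxeter element
`s_1 s_2 ⋯ s_n` of the Weyl group of `A` (for all acyclic orientations of the diagram, because the
rows and columns may be numbered in any order). `F` is self-reciprocal. For nonnegative integers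
`e_i` let `F_e` be the determinant with `(1 + e_i) X + (1 - e_i)` instead of `X + 1` in the `i`-th
diagonal entry.

(1) On the unit circle `|F| ≤ |F_e|`. All zeros of `F_e` are at most `M(F)` in absolute value. If the
symmetrized form of `A` has at most `r` negative eigenvalues, at most `r` zeros of `F_e` are outside the
unit circle, and `M(F_e) ≤ ∏ (1 + e_i) M(F) ^ r`.

(2) Let `κ` be a monotone function, given once and for all, and let `coxeterMeasures κ` be the set of
the measures `x = M(F_A)` for all `A` of all sizes with at most `κ(x)` negative eigenvalues such that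
`F` and `F_e` have no common zero outside the unit circle for some `e` with `∑ e_i ≤ κ(x)`. It contains
`M(F_A)` if `F_A` is the product of an irreducible polynomial and of a polynomial of measure `1` and
`A` has at most `κ(M(F_A))` negative eigenvalues (`κ ≥ 1`).

(3) `x ∈ coxeterMeasures κ` is the measure of a polynomial with a coprime companion of height at most
`(1 + κ(x)) log (2 x)`. Hence (4), (5): the closure of the multiplicative monoid generated by this set
and by any other class with bounded companions consists of Mahler measures of integer polynomials in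
several variables; it has a gap above `1`, and below every bound it has finite Cantor-Bendixson rank.

Proof of (1). Let `w_e` be the product `s_1 s_2 ⋯ s_n` in which the reflection `s_i` is replaced by its
average `(e_i + s_i) / (1 + e_i)` with the identity; its characteristic polynomial is
`F_e / ∏ (1 + e_i)`. The powers of `w_e` are averages of elements of the Weyl group, so they send
antidominant nonnegative vectors to nonnegative vectors (positivity of roots); by Pringsheim's theorem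
the largest eigenvalue in absolute value is real, and `F_e` has no real zeros beyond the last real zero
of `F` by the theory of M-matrices. `w_e` is a contraction of the form, which gives the bound for the
number of the zeros outside.
-/

set_option autoImplicit false

namespace Pool.Agent.Results.MP_6d22ea_nt.HigherIndexCoxeter

open Polynomial

noncomputable section

/-- Value of an integer polynomial in `k` variables at the torus point
`(exp (2 π i t_1), …, exp (2 π i t_k))`. -/
def value {k : ℕ} (F : MvPolynomial (Fin k) ℤ) (t : Fin k → ℝ) : ℂ :=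
  MvPolynomial.eval
    (fun j : Fin k => Complex.exp (2 * (Real.pi : ℂ) * Complex.I * ((t j : ℝ) : ℂ)))
    (MvPolynomial.map (Int.castRingHom ℂ) F)

/-- The Mahler measure of an integer polynomial in `k` variables. -/
def mahler {k : ℕ} (F : MvPolynomial (Fin k) ℤ) : ℝ :=
  Real.exp (∫ t in Set.Icc (0 : Fin k → ℝ) 1, Real.log ‖value F t‖)

/-- The integral of `log max(|F|, |G|)` over the torus. -/
def pairHeight {k : ℕ} (F G : MvPolynomial (Fin k) ℤ) : ℝ :=
  ∫ t in Set.Icc (0 : Fin k → ℝ) 1, Real.log (max ‖value F t‖ ‖value G t‖)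

/-- The set of the Mahler measures of the nonzero integer polynomials in any number of variables. -/
def allMeasures : Set ℝ :=
  {x : ℝ | ∃ k : ℕ, 1 ≤ k ∧ ∃ F : MvPolynomial (Fin k) ℤ, F ≠ 0 ∧ x = mahler F}

/-- The Mahler measures of the nonzero polynomials `F` having a coprime companion `G ≠ 0` with
`∫ log max(|F|, |G|) ≤ K`. -/
def L (K : ℝ) : Set ℝ :=
  {x : ℝ | ∃ k : ℕ, 1 ≤ k ∧ ∃ F G : MvPolynomial (Fin k) ℤ, F ≠ 0 ∧ G ≠ 0 ∧ IsRelPrime F G ∧
    pairHeight F G ≤ K ∧ x = mahler F}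

/-- For every `B` some `L K` contains all elements of `T` below `B`. -/
def BoundedCompanions (T : Set ℝ) : Prop := ∀ B : ℝ, ∃ K : ℝ, T ∩ Set.Iio B ⊆ L K

/-- The value of an integer polynomial in one variable at a complex number. -/
def at1 (P : ℤ[X]) (z : ℂ) : ℂ := (P.map (Int.castRingHom ℂ)).eval z

/-- The Mahler measure of an integer polynomial in one variable (Mathlib). -/
def measure (P : ℤ[X]) : ℝ := (P.map (Int.castRingHom ℂ)).mahlerMeasure

/-- `A` is an indecomposable generalised Cartan matrix, symmetrizable by `d`: the diagonal entries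
are `2`, the others nonpositive, the matrix `(d_i A_ij)` is symmetric with `d_i > 0`, and the index set is
not the union of two nonempty disjoint subsets `S`, `S'` with `A_ij = 0` for `i ∈ S`, `j ∈ S'`. -/
structure IsCartan {n : ℕ} (A : Matrix (Fin n) (Fin n) ℤ) (d : Fin n → ℝ) : Prop where
  diag : ∀ i, A i i = 2
  off : ∀ i j, i ≠ j → A i j ≤ 0
  pos : ∀ i, 0 < d i
  symm : ∀ i j, d i * A i j = d j * A j i
  indec : ∀ S : Finset (Fin n), S.Nonempty → S ≠ Finset.univ → ∃ i ∈ S, ∃ j, j ∉ S ∧ A i j ≠ 0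

/-- The quadratic form `∑ d_i A_ij x_i x_j` has at most `r` negative eigenvalues: it becomes positive
semidefinite when the squares of `r` linear forms are added. -/
def IndexLE {n : ℕ} (A : Matrix (Fin n) (Fin n) ℤ) (d : Fin n → ℝ) (r : ℕ) : Prop :=
  ∃ v : Fin r → Fin n → ℝ, ∀ x : Fin n → ℝ,
    0 ≤ ∑ i, ∑ j, d i * A i j * x i * x j + ∑ k, (∑ i, v k i * x i) ^ 2

/-- The Coxeter polynomial. -/
def coxeter {n : ℕ} (A : Matrix (Fin n) (Fin n) ℤ) : ℤ[X] :=
  (Matrix.of fun i j => if i < j then C (A i j) * X else if j < i then C (A i j) else X + 1).det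

/-- The polynomial `F_e`. -/
def absorbed {n : ℕ} (A : Matrix (Fin n) (Fin n) ℤ) (e : Fin n → ℕ) : ℤ[X] :=
  (Matrix.of fun i j => if i < j then C (A i j) * X else if j < i then C (A i j) else
    C (1 + (e i : ℤ)) * X + C (1 - (e i : ℤ))).det

/-- The measures `x` of the Coxeter polynomials of matrices with at most `κ x` negative eigenvalues,
with no zero outside the unit circle in common with `F_e` for some `e` with `∑ e_i ≤ κ x`. -/
def coxeterMeasures (κ : ℝ → ℝ) : Set ℝ :=
  {x : ℝ | ∃ (n : ℕ) (A : Matrix (Fin n) (Fin n) ℤ) (d : Fin n → ℝ) (r : ℕ) (e : Fin n → ℕ),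
    IsCartan A d ∧ IndexLE A d r ∧ (r : ℝ) ≤ κ x ∧ (∑ i, (e i : ℝ)) ≤ κ x ∧
    (∀ z : ℂ, 1 < ‖z‖ → at1 (coxeter A) z = 0 → at1 (absorbed A e) z ≠ 0) ∧
    x = measure (coxeter A)}

open Pool.Agent.H28.CXR in
theorem absorbed_eq {n : ℕ} (A : Matrix (Fin n) (Fin n) ℤ) (e : Fin n → ℕ) :
    absorbed A e = Pool.Agent.W5h66.CX.pol A (fun i => (e i : ℤ)) := by
  unfold absorbed Pool.Agent.W5h66.CX.pol Pool.Agent.W5h66.CX.pnc
    Pool.Agent.W5h66.CX.up Pool.Agent.W5h66.CX.lo
  congr 1
  ext1 i j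
  rcases lt_trichotomy i j with h | h | h
  · simp [h, h.not_gt, h.ne]
    exact mul_comm _ _
  · subst h
    simp
    ring
  · simp [h, h.not_gt, h.ne']

theorem coxeter_eq {n : ℕ} (A : Matrix (Fin n) (Fin n) ℤ) :
    coxeter A = Pool.Agent.W5h66.CX.cox A := by
  unfold coxeter Pool.Agent.W5h66.CX.cox Pool.Agent.W5h66.CX.pol Pool.Agent.W5h66.CX.pnc
    Pool.Agent.W5h66.CX.up Pool.Agent.W5h66.CX.lo
  congr 1
  ext1 i j
  rcases lt_trichotomy i j with h | h | h
  · simp [h, h.not_gt, h.ne]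
    exact mul_comm _ _
  · subst h
    simp
  · simp [h, h.not_gt, h.ne']

theorem IsCartan.car {n : ℕ} {A : Matrix (Fin n) (Fin n) ℤ} {d : Fin n → ℝ} (h : IsCartan A d) :
    Pool.Agent.H28.CXR.Asm.Car A d := ⟨h.diag, h.off, h.pos, h.symm⟩

theorem IsCartan.ind {n : ℕ} {A : Matrix (Fin n) (Fin n) ℤ} {d : Fin n → ℝ} (h : IsCartan A d) :
    Pool.Agent.H28.CXR.Indec (A.map (Int.castRingHom ℝ)) := by
  intro S h1 h2
  obtain ⟨i, hi, j, hj, hij⟩ := h.indec S h1 h2
  exact ⟨i, hi, j, hj, by simpa using hij⟩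

theorem aux (hC : Pool.Agent.H28.CXR.S_CNT) (hR : Pool.Agent.H28.CXR.S_RHO)
    (hD : Pool.Agent.H28.CXR.S_DET) (hT : Pool.Agent.H28.CXR.S_TRI)
    (hT1 : Pool.Agent.H28.CXR.S_TOP1) (hT2 : Pool.Agent.H28.CXR.S_TOP2)
    (κ : ℝ → ℝ) (hκ : Monotone κ) :
    (∀ (n : ℕ) (A : Matrix (Fin n) (Fin n) ℤ) (d : Fin n → ℝ) (e : Fin n → ℕ), IsCartan A d →
      (∀ z : ℂ, ‖z‖ = 1 → ‖at1 (coxeter A) z‖ ≤ ‖at1 (absorbed A e) z‖) ∧
      (∀ z : ℂ, at1 (absorbed A e) z = 0 → ‖z‖ ≤ measure (coxeter A)) ∧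
      ∀ r : ℕ, IndexLE A d r →
        (((absorbed A e).map (Int.castRingHom ℂ)).roots.filter fun z => 1 < ‖z‖).card ≤ r ∧
        measure (absorbed A e) ≤ (∏ i, (1 + (e i : ℝ))) * measure (coxeter A) ^ r) ∧
    (∀ (n : ℕ) (A : Matrix (Fin n) (Fin n) ℤ) (d : Fin n → ℝ) (r : ℕ) (H K : ℤ[X]),
      IsCartan A d → IndexLE A d r → (r : ℝ) ≤ κ (measure (coxeter A)) →
      1 ≤ κ (measure (coxeter A)) → coxeter A = H * K → Irreducible H → measure K = 1 →
        measure (coxeter A) ∈ coxeterMeasures κ) ∧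
    (∀ x ∈ coxeterMeasures κ, x ∈ L ((1 + κ x) * Real.log (2 * x))) ∧
    BoundedCompanions (coxeterMeasures κ) ∧
    ∀ T : Set ℝ, BoundedCompanions T → ∃ M : Submonoid ℝ,
      M = Submonoid.closure (T ∪ coxeterMeasures κ) ∧
      BoundedCompanions (M : Set ℝ) ∧ closure (M : Set ℝ) ⊆ allMeasures ∧
      (∃ δ : ℝ, 1 < δ ∧ ∀ x ∈ M, x = 1 ∨ δ ≤ x) ∧
      ∀ B : ℝ, ∃ s : ℕ, ∀ x ∈ derivedSet^[s] (M : Set ℝ), B ≤ x := by
  set c : ℝ → ℝ := fun x => (1 + max 0 (κ x)) * Real.log 2 + max 0 (κ x) * Real.log (max 1 x)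
    with hc
  have hcm : Monotone c := by
    intro x y hxy
    have h1 : max 0 (κ x) ≤ max 0 (κ y) := max_le_max le_rfl (hκ hxy)
    have h2 : Real.log (max 1 x) ≤ Real.log (max 1 y) :=
      Real.log_le_log (by positivity) (max_le_max le_rfl hxy)
    have h3 : 0 ≤ Real.log (max 1 x) := Real.log_nonneg (le_max_left _ _)
    have h4 : 0 ≤ Real.log 2 := Real.log_nonneg (by norm_num)
    rw [hc]
    beta_reduce
    refine add_le_add (mul_le_mul_of_nonneg_right (by linarith) h4) ?_
    exact mul_le_mul h1 h2 h3 (le_max_left _ _)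
  have hgood : ∀ x ∈ coxeterMeasures κ, 1 ≤ x ∧ 0 ≤ κ x ∧ ∃ P : ℤ[X],
      Pool.Agent.Y820.LB.Good (c x) P ∧ x = Pool.Agent.H261R2.CM.m1 P := by
    rintro x ⟨n, A, d, r, e, hA, ⟨V, hV⟩, hr, he, hz, hx⟩
    have h1 : 1 ≤ x := by
      rw [hx, coxeter_eq]
      exact Pool.Agent.W5h66.CX.Dat.one_le A
    have h0 : 0 ≤ κ x := le_trans (Nat.cast_nonneg r) hr
    refine ⟨h1, h0, Pool.Agent.W5h66.CX.cox A, ?_, by rw [hx, coxeter_eq]; rfl⟩
    have hxm : Pool.Agent.H261R2.CM.m1 (Pool.Agent.W5h66.CX.cox A) = x := by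
      rw [hx, coxeter_eq]; rfl
    refine hA.car.good hC hD V hV (fun i => (e i : ℤ)) (fun i => Int.natCast_nonneg _)
      (fun z hz0 => hA.car.size hC hR hT hA.ind _ (fun i => Int.natCast_nonneg _) z hz0) ?_ _ ?_
    · intro z hz1 hz2
      have h3 := hz z hz1 (by rw [coxeter_eq]; exact hz2)
      rw [absorbed_eq] at h3
      exact h3
    · rw [hxm, hc]
      beta_reduce
      rw [max_eq_right h0, max_eq_right h1]
      have h4 : Real.log (∏ i, (1 + (((e i : ℕ) : ℤ) : ℝ))) ≤ κ x * Real.log 2 := by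
        have h5 : ∏ i, (1 + (((e i : ℕ) : ℤ) : ℝ)) ≤ 2 ^ (∑ i, e i) := by
          rw [← Finset.prod_pow_eq_pow_sum]
          refine Finset.prod_le_prod (fun i _ => by positivity) fun i _ => ?_
          have h6 : e i + 1 ≤ 2 ^ e i := Nat.lt_two_pow_self
          have h7 : ((e i + 1 : ℕ) : ℝ) ≤ ((2 ^ e i : ℕ) : ℝ) := by exact_mod_cast h6
          push_cast at h7 ⊢
          linarith
        have h8 : 0 < ∏ i, (1 + (((e i : ℕ) : ℤ) : ℝ)) :=
          Finset.prod_pos fun i _ => by positivity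
        have h9 := Real.log_le_log h8 h5
        rw [Real.log_pow] at h9
        refine h9.trans (mul_le_mul_of_nonneg_right ?_ (Real.log_nonneg (by norm_num)))
        push_cast
        exact he
      have h5 : (r : ℝ) * Real.log x ≤ κ x * Real.log x :=
        mul_le_mul_of_nonneg_right hr (Real.log_nonneg h1)
      nlinarith
  have hBC : Pool.Agent.TH845.KN.BC (coxeterMeasures κ) :=
    Pool.Agent.W5h66.CX.good_BC' c hcm _ fun x hx => Or.inr (hgood x hx).2.2
  refine ⟨?_, ?_, ?_, hBC, ?_⟩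
  · intro n A d e hA
    refine ⟨fun z hz => ?_, fun z hz => ?_, fun r hr => ?_⟩
    · rw [coxeter_eq, absorbed_eq]
      exact hA.car.circle_le hD _ (fun i => Int.natCast_nonneg _) z hz
    · rw [absorbed_eq] at hz
      rw [coxeter_eq]
      exact hA.car.size hC hR hT hA.ind _ (fun i => Int.natCast_nonneg _) z hz
    · obtain ⟨V, hV⟩ := hr
      rw [coxeter_eq, absorbed_eq]
      refine ⟨hA.car.card hC V hV _ fun i => Int.natCast_nonneg _, ?_⟩
      have h1 := hA.car.measure hC V hV (fun i => (e i : ℤ)) (fun i => Int.natCast_nonneg _)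
        fun z hz0 => hA.car.size hC hR hT hA.ind _ (fun i => Int.natCast_nonneg _) z hz0
      simp only [Int.cast_natCast] at h1
      exact h1
  · intro n A d r H K hA hr h1 h2 h3 h4 h5
    rcases n with _ | n
    · exfalso
      have h6 : H * K = 1 := by
        rw [← h3]
        unfold coxeter
        exact Matrix.det_isEmpty
      exact h4.not_isUnit (IsUnit.of_mul_eq_one _ h6)
    · refine ⟨n + 1, A, d, r, Pi.single 0 1, hA, hr, h1, ?_, ?_, rfl⟩
      · have h6 : (∑ i, ((Pi.single 0 1 : Fin (n + 1) → ℕ) i : ℝ)) = 1 := by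
          have h7 : (∑ i, (Pi.single 0 1 : Fin (n + 1) → ℕ) i) = 1 := by simp
          exact_mod_cast h7
        rw [h6]
        exact h2
      · intro z hz hz0
        rw [absorbed_eq]
        have h6 : (fun i => ((Pi.single 0 1 : Fin (n + 1) → ℕ) i : ℤ)) =
            (Pi.single 0 1 : Fin (n + 1) → ℤ) := by
          ext i
          by_cases hi : i = 0
          · subst hi; simp
          · simp [Pi.single_eq_of_ne hi]
        rw [h6]
        rw [coxeter_eq] at hz0 h3
        exact Pool.Agent.H28.CXR.Asm.one_factor hC hT hT1 hT2 hA.car hA.ind H K h4 h5 h3 0 z hz hz0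
  · intro x hx
    obtain ⟨h1, h0, P, hP, hxP⟩ := hgood x hx
    have hcx : 0 ≤ c x := by
      have h3 : 0 ≤ Real.log (max 1 x) := Real.log_nonneg (le_max_left _ _)
      have h4 : 0 ≤ Real.log 2 := Real.log_nonneg (by norm_num)
      have h5 : 0 ≤ max 0 (κ x) := le_max_left _ _
      rw [hc]
      positivity
    have hK : Real.log x + c x = (1 + κ x) * Real.log (2 * x) := by
      rw [hc]
      beta_reduce
      rw [max_eq_right h0, max_eq_right h1, Real.log_mul two_ne_zero (by linarith)]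
      ring
    rw [← hK]
    rcases Pool.Agent.Y820.LB.good_pair _ _ hP with h3 | ⟨D, Q, R, _, h4, h5, h6, _, h8, h9⟩
    · rw [← hxP] at h3
      rw [h3] at hcx ⊢
      rw [Real.log_one, zero_add]
      exact Pool.Agent.H261R2.CM.LL_mono hcx Pool.Agent.TH845.KN.one_mem_LL
    · rw [← hxP] at h8
      rw [h8] at h9 ⊢
      exact Pool.Agent.W242.IM.m1_mem_LL Q R h4 h5 h6 _ (by rw [← h8] at h9 ⊢; exact h9)
  · intro T hT'
    have h1 : Pool.Agent.TH845.KN.BC
        ((Submonoid.closure (T ∪ coxeterMeasures κ) : Submonoid ℝ) : Set ℝ) :=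
      Pool.Agent.TH845.KN.BC_monoid (Pool.Agent.TH845.KN.BC.union hT' hBC)
    obtain ⟨h2, h3⟩ := Pool.Agent.W242.IM.closure_of_LL _ h1
    exact ⟨_, rfl, h1, h2, Pool.Agent.TH845.KN.gap_BC h1, h3⟩

theorem rho : Pool.Agent.H28.CXR.S_RHO :=
  Pool.Agent.H28.CXR.RHO.main
    (Pool.Agent.H28.CXR.ITER.main
      (Pool.Agent.H28.CXR.POS.main
        (Pool.Agent.H28.CXR.ROOT.main Pool.Agent.H28.CXR.DIH.main Pool.Agent.H28.CXR.PAR.main
          (Pool.Agent.H28.CXR.ALT.main Pool.Agent.H28.CXR.BR.br0 Pool.Agent.H28.CXR.BR.br1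
            Pool.Agent.H28.CXR.BR.br2 Pool.Agent.H28.CXR.BR.br3)))
      Pool.Agent.H28.CXR.FOLD.main)
    Pool.Agent.H28.CXR.PRI.main

theorem result (κ : ℝ → ℝ) (hκ : Monotone κ) :
    (∀ (n : ℕ) (A : Matrix (Fin n) (Fin n) ℤ) (d : Fin n → ℝ) (e : Fin n → ℕ), IsCartan A d →
      (∀ z : ℂ, ‖z‖ = 1 → ‖at1 (coxeter A) z‖ ≤ ‖at1 (absorbed A e) z‖) ∧
      (∀ z : ℂ, at1 (absorbed A e) z = 0 → ‖z‖ ≤ measure (coxeter A)) ∧
      ∀ r : ℕ, IndexLE A d r →
        (((absorbed A e).map (Int.castRingHom ℂ)).roots.filter fun z => 1 < ‖z‖).card ≤ r ∧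
        measure (absorbed A e) ≤ (∏ i, (1 + (e i : ℝ))) * measure (coxeter A) ^ r) ∧
    (∀ (n : ℕ) (A : Matrix (Fin n) (Fin n) ℤ) (d : Fin n → ℝ) (r : ℕ) (H K : ℤ[X]),
      IsCartan A d → IndexLE A d r → (r : ℝ) ≤ κ (measure (coxeter A)) →
      1 ≤ κ (measure (coxeter A)) → coxeter A = H * K → Irreducible H → measure K = 1 →
        measure (coxeter A) ∈ coxeterMeasures κ) ∧
    (∀ x ∈ coxeterMeasures κ, x ∈ L ((1 + κ x) * Real.log (2 * x))) ∧
    BoundedCompanions (coxeterMeasures κ) ∧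
    ∀ T : Set ℝ, BoundedCompanions T → ∃ M : Submonoid ℝ,
      M = Submonoid.closure (T ∪ coxeterMeasures κ) ∧
      BoundedCompanions (M : Set ℝ) ∧ closure (M : Set ℝ) ⊆ allMeasures ∧
      (∃ δ : ℝ, 1 < δ ∧ ∀ x ∈ M, x = 1 ∨ δ ≤ x) ∧
      ∀ B : ℝ, ∃ s : ℕ, ∀ x ∈ derivedSet^[s] (M : Set ℝ), B ≤ x :=
  aux Pool.Agent.H28.CXR.CNT.main rho Pool.Agent.H28.CXR.DET.main Pool.Agent.H28.CXR.TRI.main
    Pool.Agent.H28.CXR.TOP1.main Pool.Agent.H28.CXR.TOP2.main κ hκ

end

end Pool.Agent.Results.MP_6d22ea_nt.HigherIndexCoxeter
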